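import Mathlib
import Pool.Agent.P.MP_c8ecb2_nt.Mid

set_option autoImplicit false

namespace Pool.Agent.Results.MP_c8ecb2_nt.AllDigits

open Pool.Agent.P.MP_c8ecb2_nt in
/-- For tuples that are integral at the primes dividing `b - 1`, every digit matrix is missed at
least `c N ^ (1 / (r + 1))` times among the first `N` positions. -/
theorem result :
    ∀ (b : ℕ), 2 ≤ b → ∀ (n : ℕ) (α : Fin n → ℝ), 1 ≤ n → (∀ j, IsAlgebraic ℚ (α j)) →
      LinearIndependent ℚ (Matrix.vecCons (1 : ℝ) α) →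
      ∀ r A : ℕ, 0 < A → Nat.Coprime A (b - 1) →
        (∀ y ∈ Submodule.span ℤ (insert 1 (Set.range α)) ^ (r + 1),
          A • y ∈ Submodule.span ℤ (insert 1 (Set.range α)) ^ r) →
      ∀ (m : ℕ) (D : Fin n → Fin (m + 1) → Fin b),
        ∃ c : ℝ, 0 < c ∧ ∀ᶠ N : ℕ in Filter.atTop,
          ((Finset.filter
              (fun i : ℕ => ∀ j : Fin n, ∀ t : Fin (m + 1),
                Int.floor (α j * (b : ℝ) ^ (i + (t : ℕ))) % (b : ℤ) = (((D j t : ℕ)) : ℤ))
              (Finset.Icc 1 N)).card : ℝ) ≤ (N : ℝ) - c * (N : ℝ) ^ (1 / ((r : ℝ) + 1)) := by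
  intro b hb n α hn halg hli r A hA hcop hr m D
  refine final_form α D ?_
  by_cases hmid : ∃ j, ¬ (b - 1) ∣ (D j 0 : ℕ)
  · exact columns_mid hb α r A hcop hr (fun j => D j 0) (fun j => (D j 0).2) hmid
  · refine columns hb α hn halg hli r (rat_pow_le_of_int α r A hA hr) (fun j => D j 0) fun j => ?_
    have h1 : (b - 1) ∣ (D j 0 : ℕ) := by
      by_contra h
      exact hmid ⟨j, h⟩
    rcases Nat.eq_zero_or_pos (D j 0 : ℕ) with h | h
    · exact Or.inl h
    · have h2 := Nat.le_of_dvd h h1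
      have h3 := (D j 0).2
      right
      omega

end Pool.Agent.Results.MP_c8ecb2_nt.AllDigits
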