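import Mathlib
import Pool.Agent.P.MP_c8ecb2_nt.RP.Tuple

set_option autoImplicit false

namespace Pool.Agent.Results.MP_c8ecb2_nt.Complexity

/-- If the rational span of `1, α₁, …, αₙ` contains an irrational algebraic number, then outside a
set of lengths `m` of upper logarithmic density at most `ε`, the digit matrices of width `m` at the
positions `1 ≤ i ≤ c m log m / log log m` are pairwise distinct. -/
theorem result :
    ∀ (b : ℕ), 2 ≤ b → ∀ (n : ℕ) (α : Fin n → ℝ),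
      (∃ x ∈ Submodule.span ℚ (insert 1 (Set.range α)), Irrational x ∧ IsAlgebraic ℚ x) →
      ∀ ε : ℝ, 0 < ε → ∃ c : ℝ, 0 < c ∧ ∀ᶠ N : ℕ in Filter.atTop, ∀ s : Finset ℕ,
        (∀ m ∈ s, m ≤ N ∧ ∃ i i' : ℕ, 1 ≤ i ∧ i < i' ∧
          (i' : ℝ) ≤ c * (m : ℝ) * Real.log m / Real.log (Real.log m) ∧
          ∀ (j : Fin n) (t : ℕ), t < m →
            Int.floor (α j * (b : ℝ) ^ (i + t)) % (b : ℤ) =
              Int.floor (α j * (b : ℝ) ^ (i' + t)) % (b : ℤ)) →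
        ∑ m ∈ s, (1 / (m : ℝ)) ≤ ε * Real.log N := by
  intro b hb n α ⟨x, hx, hi, ha⟩ ε hε
  obtain ⟨C, hC0, hC⟩ := Pool.Agent.P.MP_c8ecb2_nt.RP.twice_tuple b hb α hx hi ha
  obtain ⟨c, hc, h⟩ := Pool.Agent.P.MP_c8ecb2_nt.RP.density_of_count
    (fun i i' m => 1 ≤ i ∧ i < i' ∧ ∀ (j : Fin n) (t : ℕ), t < m →
      Int.floor (α j * (b : ℝ) ^ (i + t)) % (b : ℤ) =
        Int.floor (α j * (b : ℝ) ^ (i' + t)) % (b : ℤ))
    (fun i i' m m' hm hq => ⟨hq.1, hq.2.1, fun j t ht => hq.2.2 j t (ht.trans_le hm)⟩) C hC0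
    (fun K hK s hs => hC K hK s fun k hk => by
      obtain ⟨i, i', h1, h2, h3, h4⟩ := hs k hk
      exact ⟨i, i', h2, h3, h1, h4⟩) ε hε
  refine ⟨c, hc, h.mono fun N hN s hs => hN s fun m hm => ?_⟩
  obtain ⟨h1, i, i', h2, h3, h4, h5⟩ := hs m hm
  exact ⟨h1, i, i', h4, h2, h3, h5⟩

end Pool.Agent.Results.MP_c8ecb2_nt.Complexity
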