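import Mathlib
import Pool.Agent.P.MP_c8ecb2_nt.H11.Final

set_option autoImplicit false

namespace Pool.Agent.Results.MP_c8ecb2_nt.RamifiedChanges

open NumberField IsDedekindDomain

/-- Let `α₁, …, αₙ` generate the real number field `K` and let `p` be a prime not dividing the base
`b` such that every prime of `K` above `p` is ramified or is a pole of some `(b ^ q - 1) αⱼ`. Then the
digit columns at positions `i` and `i + q` differ for at least `N ^ c` positions `1 ≤ i ≤ N`, for some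
`c > 0` and all large `N`. -/
theorem result :
    ∀ (b : ℕ), 2 ≤ b → ∀ (K : Type) [Field K] [NumberField K] (ι : K →+* ℝ) (n : ℕ)
      (α : Fin n → K), Algebra.adjoin ℚ (Set.range α) = ⊤ → ∀ q : ℕ, 1 ≤ q →
      ∀ p : ℕ, p.Prime → ¬ p ∣ b →
      (∀ v : HeightOneSpectrum (𝓞 K), (p : 𝓞 K) ∈ v.asIdeal →
        (p : 𝓞 K) ∈ v.asIdeal ^ 2 ∨ ∃ j : Fin n, 1 < v.valuation K (((b : K) ^ q - 1) * α j)) →
      ∃ c : ℝ, 0 < c ∧ ∀ᶠ N : ℕ in Filter.atTop,
        (N : ℝ) ^ c ≤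
          ((Finset.filter
            (fun i : ℕ => ∃ j : Fin n, Int.floor (ι (α j) * (b : ℝ) ^ (i + q)) % (b : ℤ) ≠
              Int.floor (ι (α j) * (b : ℝ) ^ i) % (b : ℤ))
            (Finset.Icc 1 N)).card : ℝ) := by
  intro b hb K _ _ ι n α hα q hq p hp hpb hv
  have h1 : 1 < b ^ q := Nat.one_lt_pow (by omega) hb
  have e1 : ((b ^ q - 1 : ℕ) : ℝ) = (b : ℝ) ^ q - 1 := by
    rw [Nat.cast_sub h1.le]; push_cast; rfl
  have e2 : ((b ^ q - 1 : ℕ) : K) = (b : K) ^ q - 1 := by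
    rw [Nat.cast_sub h1.le]; push_cast; rfl
  obtain ⟨D, A, hD, h⟩ := Pool.Agent.P.MP_c8ecb2_nt.H11.bound_of_ramified hb
    (H := fun N => (Finset.filter
      (fun i : ℕ => ∃ j : Fin n, Int.floor (ι (α j) * (b : ℝ) ^ (i + q)) % (b : ℤ) ≠
        Int.floor (ι (α j) * (b : ℝ) ^ i) % (b : ℤ)) (Finset.Icc 1 N)).card + 2)
    (fun N => Nat.le_add_left _ _) ι α hα (a := b ^ q - 1) (by omega) hp hpb
    (fun j => by
      rw [e1]
      refine Pool.Agent.P.MP_c8ecb2_nt.H11.good_of_changes hb _ q _ fun N i hi h => ?_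
      by_contra h2
      exact h (Finset.mem_filter.2 ⟨hi, j, h2⟩))
    (by rw [e2]; exact hv)
  exact Pool.Agent.P.MP_c8ecb2_nt.H11.rpow_le_of_bound hD h

end Pool.Agent.Results.MP_c8ecb2_nt.RamifiedChanges
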